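import Mathlib

/-! # Log-concavity for the crown posets: the polynomial side -/

set_option autoImplicit false

open Polynomial Finset

namespace Pool.Agent.Q74.Crown

/-- Positivity of a product of linear factors with constant terms `≥ 1`, and ultra log-concavity. -/
structure Good (m : ℕ) (p : ℝ[X]) : Prop where
  nonneg : ∀ k, 0 ≤ p.coeff k
  zero : ∀ k, p.coeff k = 0 → p.coeff (k + 1) = 0
  ulc : ∀ k : ℕ, ((k : ℝ) + 2) * (p.coeff k * p.coeff (k + 2)) ≤ ((k : ℝ) + 1) * p.coeff (k + 1) ^ 2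
  one : p.coeff 1 ≤ m * p.coeff 0

theorem good_one : Good 0 (1 : ℝ[X]) where
  nonneg k := by
    rw [coeff_one]
    split_ifs <;> norm_num
  zero k _ := by rw [coeff_one, if_neg (by omega)]
  ulc k := by
    rw [coeff_one, coeff_one (n := k + 2), if_neg (show ¬ (k + 2 = 0) by omega), mul_zero, mul_zero]
    positivity
  one := by simp [coeff_one]

theorem Good.mul {m : ℕ} {p : ℝ[X]} (h : Good m p) {a : ℝ} (ha : 1 ≤ a) : Good (m + 1) (p * (X + C a)) := by
  have c0 : (p * (X + C a)).coeff 0 = a * p.coeff 0 := by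
    rw [mul_add, coeff_add, coeff_mul_X_zero, coeff_mul_C]
    ring
  have cs : ∀ k, (p * (X + C a)).coeff (k + 1) = p.coeff k + a * p.coeff (k + 1) := by
    intro k
    rw [mul_add, coeff_add, coeff_mul_X, coeff_mul_C]
    ring
  have ha0 : 0 < a := by linarith
  -- the consequence used for the mixed terms
  have hmix : ∀ k : ℕ, ((k : ℝ) + 3) * (p.coeff k * p.coeff (k + 3)) ≤
      ((k : ℝ) + 1) * (p.coeff (k + 1) * p.coeff (k + 2)) := by
    intro k
    have n0 := h.nonneg k
    have n1 := h.nonneg (k + 1)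
    have n2 := h.nonneg (k + 2)
    have n3 := h.nonneg (k + 3)
    have hk : (0 : ℝ) ≤ k := Nat.cast_nonneg k
    rcases n1.eq_or_lt with h1 | h1
    · have h2 := h.zero (k + 1) h1.symm
      have h3 := h.zero (k + 2) h2
      rw [← h1, h2, h3]
      simp
    rcases n2.eq_or_lt with h2 | h2
    · have h3 := h.zero (k + 2) h2.symm
      rw [← h2, h3]
      simp
    have u0 := h.ulc k
    have u1 := h.ulc (k + 1)
    push_cast at u1
    have hprod : (((k : ℝ) + 2) * (p.coeff k * p.coeff (k + 2))) * (((k : ℝ) + 1 + 2) * (p.coeff (k + 1) * p.coeff (k + 3))) ≤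
        (((k : ℝ) + 1) * p.coeff (k + 1) ^ 2) * (((k : ℝ) + 1 + 1) * p.coeff (k + 2) ^ 2) :=
      mul_le_mul u0 u1 (by positivity) (by positivity)
    have hpos : 0 < ((k : ℝ) + 2) * (p.coeff (k + 1) * p.coeff (k + 2)) := by positivity
    have : (((k : ℝ) + 2) * (p.coeff (k + 1) * p.coeff (k + 2))) * (((k : ℝ) + 3) * (p.coeff k * p.coeff (k + 3))) ≤
        (((k : ℝ) + 2) * (p.coeff (k + 1) * p.coeff (k + 2))) * (((k : ℝ) + 1) * (p.coeff (k + 1) * p.coeff (k + 2))) := by
      nlinarith [hprod]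
    exact le_of_mul_le_mul_left this hpos
  refine ⟨fun k => ?_, fun k hk => ?_, fun k => ?_, ?_⟩
  · rcases k with _ | k
    · rw [c0]
      have := h.nonneg 0
      positivity
    · rw [cs]
      have := h.nonneg k
      have := h.nonneg (k + 1)
      positivity
  · rcases k with _ | k
    · rw [c0] at hk
      have h0 : p.coeff 0 = 0 := by
        rcases mul_eq_zero.1 hk with h1 | h1
        · exact absurd h1 ha0.ne'
        · exact h1
      rw [cs, h0, h.zero 0 h0]
      simp
    · rw [cs] at hk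
      have n0 := h.nonneg k
      have n1 := h.nonneg (k + 1)
      have h0 : p.coeff (k + 1) = 0 := by
        have : a * p.coeff (k + 1) = 0 := by
          have : 0 ≤ a * p.coeff (k + 1) := by positivity
          linarith
        rcases mul_eq_zero.1 this with h1 | h1
        · exact absurd h1 ha0.ne'
        · exact h1
      rw [cs, h0, h.zero (k + 1) h0]
      simp
  · rcases k with _ | k
    · rw [c0, cs, cs]
      have n0 := h.nonneg 0
      have n1 := h.nonneg 1
      have n2 := h.nonneg 2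
      have u0 := h.ulc 0
      norm_num at u0 ⊢
      nlinarith [mul_nonneg ha0.le (mul_nonneg ha0.le (sub_nonneg.2 u0)), mul_nonneg n0 n0]
    · rw [cs, cs, cs]
      have n0 := h.nonneg k
      have n1 := h.nonneg (k + 1)
      have n2 := h.nonneg (k + 2)
      have n3 := h.nonneg (k + 3)
      have u0 := h.ulc k
      have u1 := h.ulc (k + 1)
      have u2 := hmix k
      have hk : (0 : ℝ) ≤ k := Nat.cast_nonneg k
      push_cast at u1 ⊢
      have e1 : k + 1 + 1 = k + 2 := by ring
      have e2 : k + 1 + 2 = k + 3 := by ring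
      rw [e2] at u1
      have t3 : ((k : ℝ) + 3) * (p.coeff k * p.coeff (k + 2)) ≤ ((k : ℝ) + 2) * p.coeff (k + 1) ^ 2 := by
        have h5 : ((k : ℝ) + 3) * (((k : ℝ) + 2) * (p.coeff k * p.coeff (k + 2))) ≤
            ((k : ℝ) + 3) * (((k : ℝ) + 1) * p.coeff (k + 1) ^ 2) := by gcongr
        have h6 : (((k : ℝ) + 3) * ((k : ℝ) + 1)) * p.coeff (k + 1) ^ 2 ≤
            (((k : ℝ) + 2) * ((k : ℝ) + 2)) * p.coeff (k + 1) ^ 2 :=
          mul_le_mul_of_nonneg_right (by nlinarith) (sq_nonneg _)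
        have h7 : 0 < (k : ℝ) + 2 := by positivity
        have h8 : ((k : ℝ) + 2) * (((k : ℝ) + 3) * (p.coeff k * p.coeff (k + 2))) ≤
            ((k : ℝ) + 2) * (((k : ℝ) + 2) * p.coeff (k + 1) ^ 2) := by linarith
        exact le_of_mul_le_mul_left h8 h7
      have t1 := mul_nonneg (mul_nonneg ha0.le ha0.le) (sub_nonneg.2 u1)
      have t2 := mul_nonneg ha0.le (sub_nonneg.2 u2)
      nlinarith [t1, t2, t3]
  · rw [cs, c0]
    have n0 := h.nonneg 0
    have := h.one
    push_cast
    nlinarith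

theorem good_prod {m : ℕ} (s : Finset ℕ) (a : ℕ → ℝ) (ha : ∀ i ∈ s, 1 ≤ a i) {p : ℝ[X]} (hp : Good m p) :
    Good (m + s.card) (p * ∏ i ∈ s, (X + C (a i))) := by
  induction s using Finset.induction_on with
  | empty => simpa using hp
  | insert i s hi ih =>
    rw [prod_insert hi, card_insert_of_notMem hi]
    have h1 := ih fun j hj => ha j (mem_insert_of_mem hj)
    have h2 := h1.mul (ha i (mem_insert_self i s))
    have e : p * ((X + C (a i)) * ∏ j ∈ s, (X + C (a j))) = (p * ∏ j ∈ s, (X + C (a j))) * (X + C (a i)) := by ring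
    rw [e]
    exact h2

/-- The coefficients of the shifted Chebyshev polynomials. -/
def ac (n s : ℕ) : ℕ := (n + s).choose (2 * s) + (n + s - 1).choose (2 * s)

theorem ac_zero_right (n : ℕ) : ac n 0 = 2 := by simp [ac]

theorem ac_eq_zero {n s : ℕ} (h : n < s) : ac n s = 0 := by
  unfold ac
  rw [Nat.choose_eq_zero_of_lt (by omega), Nat.choose_eq_zero_of_lt (by omega)]

theorem ac_rec (n s : ℕ) : ac (n + 2) (s + 1) + ac n (s + 1) = 2 * ac (n + 1) (s + 1) + ac (n + 1) s := by
  unfold ac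
  have e1 : n + 2 + (s + 1) = n + s + 3 := by ring
  have e2 : n + (s + 1) = n + s + 1 := by ring
  have e3 : n + 1 + (s + 1) = n + s + 2 := by ring
  have e4 : n + 1 + s = n + s + 1 := by ring
  have e5 : 2 * (s + 1) = 2 * s + 2 := by ring
  rw [e1, e2, e3, e4, e5]
  simp only [show n + s + 3 - 1 = n + s + 2 by omega, show n + s + 2 - 1 = n + s + 1 by omega,
    show n + s + 1 - 1 = n + s by omega]
  have p1 := Nat.choose_succ_succ (n + s + 2) (2 * s + 1)
  have p2 := Nat.choose_succ_succ (n + s + 1) (2 * s + 1)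
  have p3 := Nat.choose_succ_succ (n + s) (2 * s + 1)
  have p4 := Nat.choose_succ_succ (n + s + 1) (2 * s)
  have p5 := Nat.choose_succ_succ (n + s) (2 * s)
  simp only [Nat.succ_eq_add_one] at p1 p2 p3 p4 p5
  rw [show n + s + 2 + 1 = n + s + 3 by ring, show 2 * s + 1 + 1 = 2 * s + 2 by ring] at p1
  rw [show n + s + 1 + 1 = n + s + 2 by ring, show 2 * s + 1 + 1 = 2 * s + 2 by ring] at p2
  rw [show 2 * s + 1 + 1 = 2 * s + 2 by ring] at p3
  rw [show n + s + 1 + 1 = n + s + 2 by ring] at p4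
  omega

/-- The values. -/
theorem sum_ac {x : ℝ} (hx : 0 < x) (n M : ℕ) (hM : n < M) :
    ∑ s ∈ range M, (ac n s : ℝ) * (x + 1 / x - 2) ^ s = x ^ n + (1 / x) ^ n := by
  induction n using Nat.strong_induction_on generalizing M with
  | _ n ih =>
    rcases n with _ | _ | n
    · obtain ⟨M, rfl⟩ : ∃ M', M = M' + 1 := ⟨M - 1, by omega⟩
      rw [sum_range_succ', sum_eq_zero fun s _ => by rw [ac_eq_zero (by omega)]; simp, ac_zero_right]
      norm_num
    · obtain ⟨M, rfl⟩ : ∃ M', M = M' + 2 := ⟨M - 2, by omega⟩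
      rw [sum_range_succ', sum_range_succ', sum_eq_zero fun s _ => by rw [ac_eq_zero (by omega)]; simp, ac_zero_right]
      have : ac 1 1 = 1 := by decide
      simp [this]
    · obtain ⟨M, rfl⟩ : ∃ M', M = M' + 1 := ⟨M - 1, by omega⟩
      have h0 := ih n (by omega) (M + 1) (by omega)
      have h1 := ih (n + 1) (by omega) (M + 1) (by omega)
      have h1' := ih (n + 1) (by omega) M (by omega)
      set u := x + 1 / x - 2 with hu
      have key : ∑ s ∈ range (M + 1), (ac (n + 2) s : ℝ) * u ^ s + ∑ s ∈ range (M + 1), (ac n s : ℝ) * u ^ s =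
          2 * ∑ s ∈ range (M + 1), (ac (n + 1) s : ℝ) * u ^ s + u * ∑ s ∈ range M, (ac (n + 1) s : ℝ) * u ^ s := by
        rw [sum_range_succ' (fun s => (ac (n + 2) s : ℝ) * u ^ s), sum_range_succ' (fun s => (ac n s : ℝ) * u ^ s),
          sum_range_succ' (fun s => (ac (n + 1) s : ℝ) * u ^ s)]
        simp only [ac_zero_right, pow_zero]
        have h2 : ∑ s ∈ range M, (ac (n + 2) (s + 1) : ℝ) * u ^ (s + 1) + ∑ s ∈ range M, (ac n (s + 1) : ℝ) * u ^ (s + 1) =
            2 * ∑ s ∈ range M, (ac (n + 1) (s + 1) : ℝ) * u ^ (s + 1) + u * ∑ s ∈ range M, (ac (n + 1) s : ℝ) * u ^ s := by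
          rw [mul_sum, mul_sum, ← sum_add_distrib, ← sum_add_distrib]
          refine sum_congr rfl fun s _ => ?_
          have h3 := ac_rec n s
          have h4 : (ac (n + 2) (s + 1) : ℝ) + ac n (s + 1) = 2 * ac (n + 1) (s + 1) + ac (n + 1) s := by
            exact_mod_cast h3
          have h5 : (ac (n + 2) (s + 1) : ℝ) = 2 * ac (n + 1) (s + 1) + ac (n + 1) s - ac n (s + 1) := by linarith
          rw [h5]
          ring
        push_cast
        linarith
      have h3 : ∑ s ∈ range (M + 1), (ac (n + 2) s : ℝ) * u ^ s =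
          2 * (x ^ (n + 1) + (1 / x) ^ (n + 1)) + u * (x ^ (n + 1) + (1 / x) ^ (n + 1)) - (x ^ n + (1 / x) ^ n) := by
        rw [← h1', ← h0]
        rw [h1'] at key ⊢
        rw [h1] at key
        linarith
      show ∑ s ∈ range (M + 1), (ac (n + 2) s : ℝ) * u ^ s = x ^ (n + 2) + (1 / x) ^ (n + 2)
      rw [h3, hu]
      have hxx : x * (1 / x) = 1 := mul_one_div_cancel hx.ne'
      set y := 1 / x
      have e1 : x ^ (n + 1) * y = x ^ n := by rw [pow_succ, mul_assoc, hxx, mul_one]
      have e2 : y ^ (n + 1) * x = y ^ n := by rw [pow_succ, mul_assoc, mul_comm y x, hxx, mul_one]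
      have e3 : x ^ (n + 2) = x ^ (n + 1) * x := by ring
      have e4 : y ^ (n + 2) = y ^ (n + 1) * y := by ring
      rw [e3, e4]
      nlinarith [e1, e2]

/-- The product formula. -/
theorem prod_formula {x : ℝ} (hx : 0 < x) {n : ℕ} (hn : 0 < n) :
    x ^ n + (1 / x) ^ n - 2 = ∏ j ∈ range n, (x + 1 / x - 2 * Real.cos (2 * Real.pi * j / n)) := by
  have hζ := Complex.isPrimitiveRoot_exp n hn.ne'
  set ζ := Complex.exp (2 * Real.pi * Complex.I / n) with hζd
  have h1 := X_pow_sub_C_eq_prod (R := ℂ) hζ (α := 1) (a := 1) hn (one_pow n)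
  have h2 := congrArg (fun q => Polynomial.eval (x : ℂ) q) h1
  simp only [eval_sub, eval_pow, eval_X, eval_C, eval_prod, mul_one] at h2
  have h3 := congrArg Complex.normSq h2
  rw [map_prod] at h3
  have h4 : Complex.normSq ((x : ℂ) ^ n - 1) = (x ^ n - 1) ^ 2 := by
    have : ((x : ℂ) ^ n - 1) = ((x ^ n - 1 : ℝ) : ℂ) := by push_cast; ring
    rw [this, Complex.normSq_ofReal, sq]
  have h5 : ∀ j : ℕ, Complex.normSq ((x : ℂ) - ζ ^ j) = x ^ 2 - 2 * Real.cos (2 * Real.pi * j / n) * x + 1 := by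
    intro j
    have h6 : ζ ^ j = (Real.cos (2 * Real.pi * j / n) : ℂ) + (Real.sin (2 * Real.pi * j / n) : ℂ) * Complex.I := by
      rw [hζd, ← Complex.exp_nat_mul]
      rw [show (j : ℂ) * (2 * Real.pi * Complex.I / n) = ((2 * Real.pi * j / n : ℝ) : ℂ) * Complex.I by push_cast; ring,
        Complex.exp_mul_I]
      push_cast
      ring
    rw [h6, Complex.normSq_apply]
    simp only [Complex.sub_re, Complex.ofReal_re, Complex.add_re, Complex.mul_re, Complex.I_re, mul_zero,
      Complex.ofReal_im, Complex.I_im, mul_one, sub_self, add_zero, Complex.sub_im, Complex.add_im, Complex.mul_im,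
      zero_add, zero_sub]
    nlinarith [Real.sin_sq_add_cos_sq (2 * Real.pi * j / n)]
  rw [h4, prod_congr rfl fun j _ => h5 j] at h3
  have h7 : x ^ n + (1 / x) ^ n - 2 = (x ^ n - 1) ^ 2 / x ^ n := by
    rw [one_div, inv_pow]
    field_simp
    ring
  rw [h7, h3, ← Finset.card_range n, ← prod_const, card_range, ← prod_div_distrib]
  refine prod_congr rfl fun j _ => ?_
  field_simp
  ring

end Pool.Agent.Q74.Crown
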