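import Mathlib
import Pool.Agent.Q74.Crown.Base

/-! # Log-concavity for the crown posets -/

set_option autoImplicit false

open Polynomial Finset

namespace Pool.Agent.Q74.Crown

/-- The numbers `h_k`. -/
def hN (n k : ℕ) : ℕ := ∑ s ∈ Icc 1 n, ac n s * (n + s).choose k

theorem poly_eq {n : ℕ} (hn : 0 < n) :
    ∑ s ∈ Icc 1 n, C (ac n s : ℝ) * X ^ s =
      ∏ j ∈ range n, ((X : ℝ[X]) + C (2 - 2 * Real.cos (2 * Real.pi * j / n))) := by
  refine Polynomial.eq_of_infinite_eval_eq _ _ ?_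
  refine Set.Infinite.mono ?_ (Set.Ioi_infinite (0 : ℝ))
  intro u hu
  have hu : 0 < u := hu
  -- choose `x > 0` with `x + 1 / x - 2 = u`
  obtain ⟨x, hx, hxu⟩ : ∃ x : ℝ, 0 < x ∧ x + 1 / x - 2 = u := by
    set t := u + 2 with ht
    have hd : 0 ≤ t ^ 2 - 4 := by nlinarith
    refine ⟨(t + Real.sqrt (t ^ 2 - 4)) / 2, by positivity, ?_⟩
    have hs := Real.sq_sqrt hd
    have hpos : 0 < t + Real.sqrt (t ^ 2 - 4) := by positivity
    rw [one_div_div]
    have : (t + Real.sqrt (t ^ 2 - 4)) / 2 + 2 / (t + Real.sqrt (t ^ 2 - 4)) = t := by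
      rw [div_add_div _ _ two_ne_zero hpos.ne', div_eq_iff (by positivity)]
      nlinarith
    linarith
  show Polynomial.eval u _ = Polynomial.eval u _
  rw [eval_finsetSum, eval_prod]
  simp only [eval_mul, eval_C, eval_pow, eval_X, eval_add]
  have h1 := sum_ac hx n (n + 1) (Nat.lt_succ_self n)
  have h2 := prod_formula hx hn
  rw [hxu] at h1
  have h3 : ∑ s ∈ range (n + 1), (ac n s : ℝ) * u ^ s = ∑ s ∈ Icc 1 n, (ac n s : ℝ) * u ^ s + 2 := by
    rw [sum_range_succ' , ac_zero_right]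
    have : ∑ s ∈ Icc 1 n, (ac n s : ℝ) * u ^ s = ∑ s ∈ range n, (ac n (s + 1) : ℝ) * u ^ (s + 1) := by
      refine (sum_bij (fun s _ => s + 1) (fun s hs => ?_) (fun a _ b _ hab => Nat.succ_injective hab) (fun b hb => ?_) (fun s _ => rfl)).symm
      · rw [mem_range] at hs; rw [mem_Icc]; omega
      · rw [mem_Icc] at hb; exact ⟨b - 1, mem_range.2 (by omega), by omega⟩
    rw [this]
    norm_num
  have h4 : ∑ s ∈ Icc 1 n, (ac n s : ℝ) * u ^ s = x ^ n + (1 / x) ^ n - 2 := by linarith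
  rw [h4, h2]
  refine prod_congr rfl fun j _ => ?_
  linarith

/-- The polynomial `H_n`. -/
noncomputable def HP (n : ℕ) : ℝ[X] := ∑ s ∈ Icc 1 n, C (ac n s : ℝ) * (1 + X) ^ (n + s)

theorem coeff_HP (n k : ℕ) : (HP n).coeff k = (hN n k : ℝ) := by
  unfold HP hN
  rw [finsetSum_coeff]
  push_cast
  refine sum_congr rfl fun s _ => ?_
  rw [coeff_C_mul, coeff_one_add_X_pow]

theorem HP_eq {n : ℕ} (hn : 0 < n) :
    HP n = (1 * ∏ _j ∈ range n, ((X : ℝ[X]) + C 1)) *
      ∏ j ∈ range n, ((X : ℝ[X]) + C (3 - 2 * Real.cos (2 * Real.pi * j / n))) := by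
  have h1 := congrArg (fun q : ℝ[X] => q.comp (X + C 1)) (poly_eq hn)
  simp only [Polynomial.sum_comp, mul_comp, C_comp, pow_comp, X_comp, Polynomial.prod_comp, add_comp] at h1
  have h2 : ∏ j ∈ range n, ((X : ℝ[X]) + C 1 + C (2 - 2 * Real.cos (2 * Real.pi * j / n))) =
      ∏ j ∈ range n, ((X : ℝ[X]) + C (3 - 2 * Real.cos (2 * Real.pi * j / n))) := by
    refine prod_congr rfl fun j _ => ?_
    rw [add_assoc, ← C_add]
    congr 2
    ring
  rw [h2] at h1
  rw [← h1, prod_const, card_range, one_mul, HP, mul_sum]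
  refine sum_congr rfl fun s _ => ?_
  rw [pow_add, C_1]
  ring

theorem good_HP {n : ℕ} (hn : 0 < n) : Good (2 * n) (HP n) := by
  rw [HP_eq hn]
  have h1 := good_prod (range n) (fun _ => (1 : ℝ)) (fun _ _ => le_rfl) good_one
  have h2 := good_prod (range n) (fun j : ℕ => 3 - 2 * Real.cos (2 * Real.pi * j / n)) (fun j _ => by
    have := Real.cos_le_one (2 * Real.pi * j / n)
    linarith) h1
  rw [card_range] at h2
  rw [show 2 * n = 0 + n + n by ring]
  exact h2

theorem hN_zero_ge {n : ℕ} (hn : 1 ≤ n) : n ^ 2 ≤ hN n 0 := by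
  have h1 : ac n 1 * (n + 1).choose 0 ≤ hN n 0 :=
    single_le_sum (f := fun s => ac n s * (n + s).choose 0) (fun _ _ => Nat.zero_le _) (mem_Icc.2 ⟨le_rfl, hn⟩)
  refine le_trans (le_of_eq ?_) h1
  unfold ac
  rw [Nat.choose_zero_right, mul_one, mul_one]
  obtain ⟨m, rfl⟩ : ∃ m, n = m + 1 := ⟨n - 1, by omega⟩
  rw [Nat.add_sub_cancel, Nat.choose_two_right, Nat.choose_two_right]
  have e1 : (m + 1 + 1) * (m + 1 + 1 - 1) = (m + 1) * m + 2 * (m + 1) := by
    rw [Nat.add_sub_cancel]; ring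
  rw [e1, Nat.add_mul_div_left _ _ (by norm_num), Nat.add_sub_cancel]
  obtain ⟨c, hc⟩ : Even ((m + 1) * m) := by
    rw [mul_comm]; exact Nat.even_mul_succ_self m
  rw [hc, show (c + c) / 2 = c by omega]
  nlinarith

theorem hN_one_ge {n : ℕ} (hn : 1 ≤ n) : 2 ≤ hN n 1 := by
  have h1 : ac n 1 * (n + 1).choose 1 ≤ hN n 1 :=
    single_le_sum (f := fun s => ac n s * (n + s).choose 1) (fun _ _ => Nat.zero_le _) (mem_Icc.2 ⟨le_rfl, hn⟩)
  have h2 : 1 ≤ ac n 1 := by
    unfold ac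
    have : 0 < (n + 1).choose (2 * 1) := Nat.choose_pos (by omega)
    omega
  rw [Nat.choose_one_right] at h1
  calc 2 ≤ 1 * (n + 1) := by omega
    _ ≤ ac n 1 * (n + 1) := Nat.mul_le_mul_right _ h2
    _ ≤ _ := h1

/-- The correction terms. -/
def dl (k : ℕ) : ℕ := if k = 0 then 2 else if k = 1 then 1 else 0

/-- The `f`-vector in terms of `h`. -/
def fv (n : ℕ) : ℕ → ℕ
  | 0 => 1
  | k + 1 => dl k + hN n k

theorem fv_logconcave {n : ℕ} (hn : 1 ≤ n) (j : ℕ) : (fv n j : ℝ) * fv n (j + 2) ≤ (fv n (j + 1) : ℝ) ^ 2 := by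
  have hG := good_HP (n := n) (by omega)
  have h0 : (0 : ℝ) ≤ (HP n).coeff 0 := hG.nonneg 0
  have h1 : (0 : ℝ) ≤ (HP n).coeff 1 := hG.nonneg 1
  have h2 : (0 : ℝ) ≤ (HP n).coeff 2 := hG.nonneg 2
  have h3 : (0 : ℝ) ≤ (HP n).coeff 3 := hG.nonneg 3
  have g0 := hG.ulc 0
  have g1 := hG.ulc 1
  have gone := hG.one
  have hsq : ((n : ℝ)) ^ 2 ≤ (HP n).coeff 0 := by
    rw [coeff_HP]; exact_mod_cast hN_zero_ge hn
  have h12 : (2 : ℝ) ≤ (HP n).coeff 1 := by
    rw [coeff_HP]; exact_mod_cast hN_one_ge hn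
  have hn1 : (1 : ℝ) ≤ n := by exact_mod_cast hn
  rcases j with _ | _ | _ | j
  · show ((1 : ℕ) : ℝ) * ((dl 1 + hN n 1 : ℕ) : ℝ) ≤ ((dl 0 + hN n 0 : ℕ) : ℝ) ^ 2
    push_cast
    rw [← coeff_HP, ← coeff_HP]
    have e0 : (dl 0 : ℝ) = 2 := by norm_num [dl]
    have e1 : (dl 1 : ℝ) = 1 := by norm_num [dl]
    rw [e0, e1]
    push_cast at gone
    nlinarith [mul_nonneg h0 (sub_nonneg.2 hsq), mul_nonneg h0 (sq_nonneg ((n : ℝ) - 1))]
  · show ((dl 0 + hN n 0 : ℕ) : ℝ) * ((dl 2 + hN n 2 : ℕ) : ℝ) ≤ ((dl 1 + hN n 1 : ℕ) : ℝ) ^ 2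
    push_cast
    rw [← coeff_HP, ← coeff_HP, ← coeff_HP]
    have e0 : (dl 0 : ℝ) = 2 := by norm_num [dl]
    have e1 : (dl 1 : ℝ) = 1 := by norm_num [dl]
    have e2 : (dl 2 : ℝ) = 0 := by norm_num [dl]
    rw [e0, e1, e2]
    norm_num at g0
    rcases Nat.lt_or_ge n 2 with h | h
    · have : n = 1 := by omega
      subst this
      have c0 : (HP 1).coeff 0 = 1 := by rw [coeff_HP]; norm_num [hN, ac]
      have c1 : (HP 1).coeff 1 = 2 := by rw [coeff_HP]; norm_num [hN, ac]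
      have c2 : (HP 1).coeff 2 = 1 := by rw [coeff_HP]; norm_num [hN, ac]
      rw [c0, c1, c2]
      norm_num
    · have hn2 : (2 : ℝ) ≤ n := by exact_mod_cast h
      have h4 : (4 : ℝ) ≤ (HP n).coeff 0 := by nlinarith
      nlinarith [mul_nonneg h2 (sub_nonneg.2 h4)]
  · show ((dl 1 + hN n 1 : ℕ) : ℝ) * ((dl 3 + hN n 3 : ℕ) : ℝ) ≤ ((dl 2 + hN n 2 : ℕ) : ℝ) ^ 2
    push_cast
    rw [← coeff_HP, ← coeff_HP, ← coeff_HP]
    have e1 : (dl 1 : ℝ) = 1 := by norm_num [dl]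
    have e2 : (dl 2 : ℝ) = 0 := by norm_num [dl]
    have e3 : (dl 3 : ℝ) = 0 := by norm_num [dl]
    rw [e1, e2, e3]
    norm_num at g1
    nlinarith [mul_nonneg h3 (sub_nonneg.2 h12)]
  · show ((dl (j + 2) + hN n (j + 2) : ℕ) : ℝ) * ((dl (j + 4) + hN n (j + 4) : ℕ) : ℝ) ≤
      ((dl (j + 3) + hN n (j + 3) : ℕ) : ℝ) ^ 2
    have e1 : dl (j + 2) = 0 := by simp [dl]
    have e2 : dl (j + 3) = 0 := by simp [dl]
    have e3 : dl (j + 4) = 0 := by simp [dl]
    rw [e1, e2, e3, zero_add, zero_add, zero_add, ← coeff_HP, ← coeff_HP, ← coeff_HP]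
    have g := hG.ulc (j + 2)
    have n1 := hG.nonneg (j + 2)
    have n2 := hG.nonneg (j + 4)
    push_cast at g
    rw [show j + 2 + 2 = j + 4 by ring, show j + 2 + 1 = j + 3 by ring] at g
    have hj : (0 : ℝ) ≤ j := Nat.cast_nonneg j
    have hm := mul_nonneg n1 n2
    have h5 : ((j : ℝ) + 2 + 1) * ((HP n).coeff (j + 2) * (HP n).coeff (j + 4)) ≤
        ((j : ℝ) + 2 + 1) * (HP n).coeff (j + 3) ^ 2 := by nlinarith
    exact le_of_mul_le_mul_left h5 (by positivity)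

theorem fv_pos {n : ℕ} (hn : 1 ≤ n) {j : ℕ} (hj : j ≤ 2 * n + 1) : 0 < fv n j := by
  cases j with
  | zero => exact Nat.one_pos
  | succ k =>
    show 0 < dl k + hN n k
    have h1 : ac n n * (n + n).choose k ≤ hN n k :=
      single_le_sum (f := fun s => ac n s * (n + s).choose k) (fun _ _ => Nat.zero_le _) (mem_Icc.2 ⟨hn, le_rfl⟩)
    have h2 : 0 < (n + n).choose k := Nat.choose_pos (by omega)
    have h3 : 0 < ac n n := by
      unfold ac
      have : 0 < (n + n).choose (2 * n) := Nat.choose_pos (by omega)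
      omega
    have := Nat.mul_pos h3 h2
    omega

/-- The recorded coefficient `N_n(r, s)`. -/
def Ncoef (n r s : ℕ) : ℚ := 2 * n / r * r.choose (2 * s) * (n + s - 1).choose (r - 1)

/-- The recorded formula for the number of `k`-dimensional faces, `k ≥ 0`. -/
def faceNumber (n k : ℕ) : ℚ :=
  (if k = 0 then 2 else if k = 1 then 1 else 0) +
    ∑ s ∈ Icc 1 n, ∑ r ∈ Icc (2 * s) (2 * n), Ncoef n r s * (if k ≤ r then (2 * s).choose (r - k) else 0)

theorem ac_mul {n s : ℕ} (h1 : 1 ≤ s) (hs : s ≤ n) : ac n s * (n + s) = 2 * n * (n + s).choose (2 * s) := by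
  unfold ac
  have h2 := Nat.choose_mul_succ_eq (n + s - 1) (2 * s)
  rw [show n + s - 1 + 1 = n + s by omega] at h2
  rw [add_mul, h2, ← mul_add, show n + s + (n + s - 2 * s) = 2 * n by omega, mul_comm]

theorem Ncoef_eq {n r s : ℕ} (h1 : 1 ≤ s) (hs : s ≤ n) (hr : 2 * s ≤ r) :
    Ncoef n r s = ac n s * (n - s).choose (r - 2 * s) := by
  have hr0 : 0 < r := by omega
  have a1 : (r : ℚ) * (n + s).choose r = (n + s : ℕ) * (n + s - 1).choose (r - 1) := by
    have h := Nat.add_one_mul_choose_eq (n + s - 1) (r - 1)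
    rw [show n + s - 1 + 1 = n + s by omega, show r - 1 + 1 = r by omega] at h
    rw [mul_comm (r : ℚ)]
    exact_mod_cast h.symm
  have a2 : ((n + s).choose r : ℚ) * r.choose (2 * s) = (n + s).choose (2 * s) * (n - s).choose (r - 2 * s) := by
    have h := Nat.choose_mul (n := n + s) (k := r) (s := 2 * s) hr
    rw [show n + s - 2 * s = n - s by omega] at h
    exact_mod_cast h
  have a3 : (ac n s : ℚ) * (n + s : ℕ) = 2 * n * (n + s).choose (2 * s) := by exact_mod_cast ac_mul h1 hs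
  have hns : ((n + s : ℕ) : ℚ) ≠ 0 := by
    have : 0 < n + s := by omega
    exact_mod_cast this.ne'
  have hrq : (r : ℚ) ≠ 0 := by exact_mod_cast hr0.ne'
  unfold Ncoef
  have key : (r : ℚ) * (n + s : ℕ) * (2 * n / r * r.choose (2 * s) * (n + s - 1).choose (r - 1)) =
      (r : ℚ) * (n + s : ℕ) * (ac n s * (n - s).choose (r - 2 * s)) := by
    calc (r : ℚ) * (n + s : ℕ) * (2 * n / r * r.choose (2 * s) * (n + s - 1).choose (r - 1))
        = 2 * n * r.choose (2 * s) * ((n + s : ℕ) * (n + s - 1).choose (r - 1)) := by field_simp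
      _ = 2 * n * r * (((n + s).choose r : ℚ) * r.choose (2 * s)) := by rw [← a1]; ring
      _ = r * (2 * n * (n + s).choose (2 * s)) * (n - s).choose (r - 2 * s) := by rw [a2]; ring
      _ = _ := by rw [← a3]; ring
  exact mul_left_cancel₀ (mul_ne_zero hrq hns) key

theorem vandermonde {n s k : ℕ} (hs : s ≤ n) :
    ∑ r ∈ Icc (2 * s) (2 * n), (n - s).choose (r - 2 * s) * (if k ≤ r then (2 * s).choose (r - k) else 0) =
      (n + s).choose k := by
  have h1 : (n + s).choose k = ∑ i ∈ range (k + 1), (n - s).choose i * (2 * s).choose (k - i) := by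
    rw [show n + s = (n - s) + 2 * s by omega, Nat.add_choose_eq, Finset.Nat.sum_antidiagonal_eq_sum_range_succ_mk]
  have h2 : ∑ r ∈ Icc (2 * s) (2 * n), (n - s).choose (r - 2 * s) * (if k ≤ r then (2 * s).choose (r - k) else 0) =
      ∑ i ∈ range (2 * n - 2 * s + 1), (n - s).choose i * (if k ≤ 2 * s + i then (2 * s).choose (2 * s + i - k) else 0) := by
    refine sum_bij (fun r _ => r - 2 * s) (fun r hr => ?_) (fun a ha b hb hab => ?_) (fun i hi => ?_) (fun r hr => ?_)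
    · rw [mem_Icc] at hr; rw [mem_range]; omega
    · rw [mem_Icc] at ha hb; omega
    · rw [mem_range] at hi; exact ⟨2 * s + i, mem_Icc.2 ⟨by omega, by omega⟩, by omega⟩
    · rw [mem_Icc] at hr
      rw [show 2 * s + (r - 2 * s) = r by omega]
  have h3 : ∀ i ≤ k, (if k ≤ 2 * s + i then (2 * s).choose (2 * s + i - k) else 0) = (2 * s).choose (k - i) := by
    intro i hi
    split_ifs with h
    · rw [← Nat.choose_symm (show k - i ≤ 2 * s by omega)]
      congr 1
      omega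
    · rw [Nat.choose_eq_zero_of_lt (by omega)]
  have h4 : ∀ i, k < i → (if k ≤ 2 * s + i then (2 * s).choose (2 * s + i - k) else 0) = 0 := by
    intro i hi
    rw [if_pos (by omega), Nat.choose_eq_zero_of_lt (by omega)]
  rw [h1, h2]
  set T : ℕ → ℕ := fun i => (n - s).choose i * (if k ≤ 2 * s + i then (2 * s).choose (2 * s + i - k) else 0) with hT
  have h5 : ∑ i ∈ range (k + 1), (n - s).choose i * (2 * s).choose (k - i) = ∑ i ∈ range (k + 1), T i := by
    refine sum_congr rfl fun i hi => ?_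
    simp only [hT]
    rw [h3 i (by rw [mem_range] at hi; omega)]
  rw [h5]
  have h6 : ∑ i ∈ range (k + 1), T i = ∑ i ∈ range (k + 1 + (2 * n - 2 * s + 1)), T i := by
    refine sum_subset (range_subset_range.2 (by omega)) fun i _ hi => ?_
    rw [mem_range, not_lt] at hi
    rw [hT]
    simp only
    rw [h4 i (by omega), mul_zero]
  have h7 : ∑ i ∈ range (2 * n - 2 * s + 1), T i = ∑ i ∈ range (k + 1 + (2 * n - 2 * s + 1)), T i := by
    refine sum_subset (range_subset_range.2 (by omega)) fun i _ hi => ?_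
    rw [mem_range, not_lt] at hi
    rw [hT]
    simp only
    rw [Nat.choose_eq_zero_of_lt (show n - s < i by omega), zero_mul]
  rw [h6, h7]

theorem faceNumber_eq (n k : ℕ) : faceNumber n k = ((dl k + hN n k : ℕ) : ℚ) := by
  unfold faceNumber hN
  push_cast
  congr 1
  · unfold dl
    split_ifs <;> norm_num
  · refine sum_congr rfl fun s hs => ?_
    rw [mem_Icc] at hs
    have h1 := vandermonde (n := n) (s := s) (k := k) hs.2
    calc ∑ r ∈ Icc (2 * s) (2 * n), Ncoef n r s * (if k ≤ r then ((2 * s).choose (r - k) : ℚ) else 0)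
        = ∑ r ∈ Icc (2 * s) (2 * n), (ac n s : ℚ) *
          (((n - s).choose (r - 2 * s) * (if k ≤ r then (2 * s).choose (r - k) else 0) : ℕ) : ℚ) := by
          refine sum_congr rfl fun r hr => ?_
          rw [mem_Icc] at hr
          rw [Ncoef_eq hs.1 hs.2 hr.1]
          push_cast
          ring
      _ = (ac n s : ℚ) * ((n + s).choose k : ℕ) := by
          rw [← mul_sum, ← Nat.cast_sum, h1]

end Pool.Agent.Q74.Crown
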